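import Pool.Agent.Q67.TG.GenDefs

/-!
# Stable sets: definitions
-/

namespace Pool.Agent.Q67.TN

open Pool.Agent.Q67.TG.F (Lin)

/-- The map sends elements of `R` to elements of `R'`. -/
def Maps {G H : Type} (f : G → H) (R : Set G) (R' : Set H) : Prop := ∀ x ∈ R, f x ∈ R'

/-- The set is stable under the operation. -/
def Stable {H : Type} (m : H → H → H) (R : Set H) : Prop := ∀ x ∈ R, ∀ y ∈ R, m x y ∈ R

/-- The images under `f` of the elements `z` with the property `P j` for some `j`. -/
def imagesOf {Z : Type*} {H : Type} [AddCommGroup Z] [Ring H] (f : Z →+ H) (P : ℕ → Z → Prop) :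
    Set H :=
  {x | ∃ j z, P j z ∧ f z = x}

/-- The element `c` is a linear combination of elements of `R` with coefficients in `L`. -/
def Comb {H : Type} (L : Type) [Field L] [AddCommGroup H] [Module L H] (R : Set H) (c : H) : Prop :=
  c ∈ Submodule.span L R

/-- The operator `φ` on `R` becomes the operator `a ↦ i z a` under the embedding `e`, for a linear
combination `z` of elements of `S` with coefficients in `L`. -/
def GivenOn {K R H G : Type} (L : Type) [Field K] [Ring R] [Algebra K R] [Field L]
    [AddCommGroup G] [Module L G] (e : R → H) (i : G → H → H) (S : Set G) (φ : Lin K R) : Prop :=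
  ∃ z, Comb L S z ∧ ∀ a, e (φ a) = i z (e a)

end Pool.Agent.Q67.TN
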