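import Pool.Agent.Q67.TG.FDefs
import Pool.Agent.Q67.TM.GenDefs
import Pool.Agent.Q67.TN.GenDefs

/-!
# Systems of classes, Hodge classes and Tate classes: definitions

`Pool.Agent.Y121.AHS.HodgeTheory` is a Weil cohomology with rational coefficients together with a
Hodge decomposition of its cohomology with complex coefficients. `HL W L X` is the cohomology of
`X` with coefficients extended to `L`, with the product `mulL`, the pull-back `mapL`, the
push-forward `pushL` and the trace `trL`.
-/

open CategoryTheory AlgebraicGeometry

universe u

namespace Pool.Agent.Q67.TN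

open Pool.Agent.H914 Pool.Agent.H914.VarClass Pool.Agent.H914.VarClass.Obj
  Pool.Agent.H914.WeilCohomology
open Pool.Agent.Y133.Half (pw algSet HasIndex AtMostHalf)
open Pool.Agent.Y121.AHS
open Pool.Agent.Q67.TM (LinOp killedBy IsInf Intertwines SpannedBy spanDim Complemented CentralIn
  NoSkew GivenBy Leibniz Kill)
open Pool.Agent.Q67.TG.F (hodgeSet IsOddProj)

variable {k : Type u} [Field k] {𝒱 : VarClass k} {ops : CycleOps 𝒱}

/-- A Hodge theory `T` and a field `L` between the rational and the complex numbers. -/
structure Theory (ops : CycleOps 𝒱) where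
  T : HodgeTheory ops
  L : Type
  [fieldL : Field L]
  [algK : Algebra T.W.K L]
  [algC : Algebra L ℂ]

attribute [instance] Theory.fieldL Theory.algK Theory.algC

variable (S : Theory ops) (X : 𝒱.Obj)

/-- The cohomology of `X` with coefficients in `L`. -/
def Coh : Type := HL S.T.W S.L X

noncomputable instance instAddCoh : AddCommGroup (Coh S X) := instAddHL S.T.W S.L X

noncomputable instance instModCoh : Module S.L (Coh S X) := instModHL S.T.W S.L X

/-- The operators on the cohomology of `X` with coefficients in `L`. -/
abbrev Opr : Type := LinOp S.L (Coh S X)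

/-- The rational cohomology of `X`. -/
abbrev RH : Type := S.T.W.H X

variable {X} in
/-- A rational class as a class with coefficients in `L`. -/
noncomputable def em (c : RH S X) : Coh S X := emL S.T.W S.L c

/-- Sets of classes with coefficients in `L` on all varieties. -/
abbrev Classes : Type (u + 1) := ∀ X : 𝒱.Obj, Set (Coh S X)

/-- The Hodge classes. -/
def hodge : Classes S := fun X => em S '' hodgeSet S.T X

/-- The classes of algebraic cycles. -/
def algebraic : Classes S := fun X => em S '' imagesOf (S.T.W.cl X) X.IsCyc

variable {S X} {Y : 𝒱.Obj}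

/-- The product of two classes. -/
noncomputable def mu (a b : Coh S X) : Coh S X := mulL a b

/-- The pull-back. -/
noncomputable def pull (f : X ⟶ Y) (x : Coh S Y) : Coh S X := mapL f x

/-- The push-forward. -/
noncomputable def push (f : X ⟶ Y) (x : Coh S X) : Coh S Y := pushL f x

/-- The trace. -/
noncomputable def trace (x : Coh S X) : S.L := trL x

/-- The class `x` is of degree `i`. -/
def Deg (i : ℕ) (x : Coh S X) : Prop := IsDeg i x

/-- `C` is a system of classes: all classes of algebraic cycles belong to `C`, all elements of `C`
are Hodge classes, and `C` is stable under products, pull-backs and push-forwards. -/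
def IsSystem (C : Classes S) : Prop :=
  (∀ X, Maps id (algebraic S X) (C X) ∧ Maps id (C X) (hodge S X) ∧ Stable mu (C X)) ∧
    ∀ (X Y : 𝒱.Obj) (f : X ⟶ Y), Maps (pull f) (C Y) (C X) ∧ Maps (push f) (C X) (C Y)

variable (S) in
/-- Families of operators on the cohomology of all varieties, with an index set. -/
structure Action where
  ι : Type
  op : ∀ X : 𝒱.Obj, ι → Opr S X

/-- The operators preserve the degrees, are derivations, have images of trace zero, kill the
elements of `C` and commute with pull-backs. -/
def Infinitesimal (C : Classes S) (D : Action S) : Prop :=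
  (∀ X i, IsInf Deg mu trace (C X) (D.op X i)) ∧
    ∀ (X Y : 𝒱.Obj) (f : X ⟶ Y) i, Intertwines (pull f) (D.op Y i) (D.op X i)

/-- The Tate classes: the classes of even degree which are killed by the operators. -/
def tate (D : Action S) : Classes S := fun X => killedBy Deg (D.op X)

/-- The cohomology of `X` with coefficients in `L` is semisimple under the operators. -/
def Semisimple (D : Action S) (X : 𝒱.Obj) : Prop := Complemented (D.op X)

/-- All classes in `R` on `X` are linear combinations of classes in `C`. -/
def In (R C : Classes S) (X : 𝒱.Obj) : Prop := SpannedBy S.L (R X) (C X)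

/-- The dimension of the space spanned by the classes in `R` on the product of `n + 1` copies of
`X`. -/
noncomputable def dimOn (R : Classes S) (X : 𝒱.Obj) (n : ℕ) : ℕ := spanDim S.L (R (pw X n))

/-- The quotients of the dimension of the space spanned by `R` on the product of `n + 1` copies of
`X` by the dimension of the space spanned by `C` converge to `N`. -/
def IndexIs (R C : Classes S) (X : 𝒱.Obj) (N : ℕ∞) : Prop := HasIndex (dimOn R X) (dimOn C X) N

/-- The image `pr₂_* (z · pr₁^* c)` of the class `c` on `X` under the correspondence `z`. -/
noncomputable def image (z : Coh S (X.prod Y)) (c : Coh S X) : Coh S Y :=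
  push (snd X Y) (mu z (pull (fst X Y) c))

/-- The rational operator `φ` is a correspondence given by elements of `C` on `X × X`. -/
def IsRatOp (C : Classes S) (X : 𝒱.Obj) (φ : TG.F.Opr S.T X) : Prop :=
  GivenOn S.L (em S) image (C (X.prod X)) φ

/-- The projector of the cohomology of `X` onto the cohomology of odd degree is given by elements
of `C`. -/
def OddIn (C : Classes S) (X : 𝒱.Obj) : Prop := ∃ φ, IsRatOp C X φ ∧ IsOddProj (S.T.W.gr X) φ

/-- The elements of `C` on `X` and the images of the classes `c i` under correspondences in `C`. -/
def gens (C : Classes S) {r : ℕ} {Y : Fin r → 𝒱.Obj} (c : ∀ i, Coh S (Y i)) : Classes S :=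
  fun X => C X ∪ ⋃ i, (fun z => image z (c i)) '' C ((Y i).prod X)

/-- There are `r` linear combinations of classes in `R` on powers of `X`, where `r + 1 ≤ N`, such
that all classes in `R` on all powers of `X` are linear combinations of elements of `C` and of
images of these `r` classes under correspondences in `C`. -/
def Generated (R C : Classes S) (X : 𝒱.Obj) (N : ℕ∞) : Prop :=
  ∃ (r : ℕ) (m : Fin r → ℕ) (c : ∀ i, Coh S (pw X (m i))), (r : ℕ∞) + 1 ≤ N ∧
    (∀ i, Comb S.L (R (pw X (m i))) (c i)) ∧ ∀ n, In R (gens C c) (pw X n)

/-- The operator `φ` is a correspondence given by elements of `R` on `X × X`. -/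
def IsOp (R : Classes S) (X : 𝒱.Obj) (φ : Opr S X) : Prop := GivenBy image (R (X.prod X)) φ

/-- The operator `A` lies in the centre of the algebra of the operators given by `R`. -/
def Central (R : Classes S) (X : 𝒱.Obj) (A : Opr S X) : Prop := CentralIn (IsOp R X) A

/-- No nonzero element of the centre of the algebra of the operators given by `R` is
skew-symmetric. -/
def NoCentralSkew (R : Classes S) (X : 𝒱.Obj) : Prop := NoSkew mu trace (Central R X)

/-- The external product of two classes. -/
noncomputable def cross (a : Coh S X) (b : Coh S Y) : Coh S (X.prod Y) :=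
  mu (pull (fst X Y) a) (pull (snd X Y) b)

/-- The operators `E m` on the cohomology of the product of `m + 1` copies of `X` are the
derivations given by the operator `A`: `E 0 = A` and `E (m + 1) (a × b) = E m a × b + a × A b`. -/
def IsDer (A : Opr S X) (E : ∀ m, Opr S (pw X m)) : Prop :=
  E 0 = A ∧ ∀ m, @Leibniz S.L (Coh S X) (Coh S (pw X m)) (Coh S ((pw X m).prod X)) _ _ _ _ _
    (instAddCoh S _) (instModCoh S _) cross (E m) A (E (m + 1))

/-- The derivation given by the operator `A` kills the elements of `R` on the product of `m + 1`
copies of `X`. -/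
def Kills (R : Classes S) (A : Opr S X) (m : ℕ) : Prop := ∀ E, IsDer A E → Kill (R (pw X m)) (E m)

/-- Every operator with the property `P` which kills the elements of `C` on all powers of `X`,
kills the elements of `R` on the product of `m + 1` copies of `X`. -/
def Crit (R C : Classes S) (X : 𝒱.Obj) (P : Opr S X → Prop) (m : ℕ) : Prop :=
  ∀ A, P A → (∀ m, Kills C A m) → Kills R A m

/-- The law for the index `N` of the classes in `R` over the classes in `C` on the powers
of `X`. -/
structure Law (R C : Classes S) (X : 𝒱.Obj) (N : ℕ∞) : Prop where
  pos : 1 ≤ N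
  index : IndexIs R C X N
  one : N = 1 ↔ ∀ n, In R C (pw X n)
  half : N ≠ 1 → AtMostHalf (dimOn C X) (dimOn R X)
  generated : N ≠ ⊤ → Generated R C X N
  infinitesimal : N ≠ ⊤ ↔ ∀ m, Crit R C X (fun _ => True) m
  four : N ≠ ⊤ ↔ Crit R C X (fun _ => True) 3 ∧ ∀ m, Crit R C X (Central R X) m
  finite : In R C (pw X 3) → NoCentralSkew C X → N ≠ ⊤

end Pool.Agent.Q67.TN
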