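import Pool.Agent.Q67.TL.MMT
import Pool.Agent.Q67.TL.FConv
import Pool.Agent.Q67.TN.Defs

/-!
# Comparison of the definitions
-/

set_option autoImplicit false
set_option linter.unusedSectionVars false

open CategoryTheory AlgebraicGeometry TensorProduct Filter Topology

universe u v w

namespace Pool.Agent.Q67.TN

open Pool.Agent.H914 Pool.Agent.H914.VarClass Pool.Agent.H914.VarClass.Obj
  Pool.Agent.H914.WeilCohomology
open Pool.Agent.Y133.Half hiding prj extOp_xp tateDim
open Pool.Agent.Q67.Det Pool.Agent.Q67.TK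
open Pool.Agent.Q67.TG
open Pool.Agent.W458.MF Pool.Agent.W536.RR Pool.Agent.H281R3.HT
open Pool.Agent.Y121 Pool.Agent.Y121.AHS
open Pool.Agent.Q67.TM (LinOp killedBy IsInf Intertwines SpannedBy spanDim Complemented CentralIn
  NoSkew GivenBy Leibniz Kill)
open Pool.Agent.Q67.TG.F (hodgeSet IsOddProj)

variable {k : Type u} [Field k] {𝒱 : VarClass k} {ops : CycleOps 𝒱} {S : Theory ops}
  {X Y Z : 𝒱.Obj}

variable (S) in
/-- the extended theory -/
noncomputable abbrev VV : WeilCohomology.{u, 0} ops := baseW (toH S.T).W S.L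

/-- A class as a class in the extended theory. -/
def cc (x : Coh S X) : (VV S).H X := x

/-- a class of the extended theory -/
def dc (x : (VV S).H X) : Coh S X := x

/-- An operator as an operator in the extended theory. -/
noncomputable def oo (φ : Opr S X) : Module.End (VV S).K ((VV S).H X) := φ

/-- An operator in the extended theory. -/
noncomputable def uu (φ : Module.End (VV S).K ((VV S).H X)) : Opr S X := φ

lemma map_cc (f : X ⟶ Y) (y : Coh S Y) : (VV S).map f (cc y) = cc (pull f y) :=
  map_eq S.T.W S.L f y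

lemma image_eq {z : Coh S (Y.prod Z)} {c : Coh S Y} :
    image z c = dc ((VV S).corr (cc z) (cc c)) := by
  have h1 := map_cc (fst Y Z) c
  have h2 : (VV S).corr (cc z) (cc c) = (VV S).push (snd Y Z)
    (cc z * (VV S).map (fst Y Z) (cc c)) := rfl
  rw [h2, h1]
  rfl

lemma cross_eq (a : Coh S Y) (b : Coh S X) :
    cc (cross a b) = Det.cross (VV S) (cc a) (cc b) := by
  rw [Det.cross, map_cc, map_cc]
  rfl

/-- The classes `R` correspond to the property `R'`. -/
structure Rep (R : Classes S) (R' : ClassPred (VV S)) : Prop where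
  of : ∀ {Z : 𝒱.Obj} {c : Coh S Z}, c ∈ R Z → ∃ j, R'.P Z j (cc c)
  sp : ∀ {Z : 𝒱.Obj} {j : ℕ} {c : (VV S).H Z}, R'.P Z j c → dc c ∈ Submodule.span S.L (R Z)

variable {R C : Classes S} {R' C' : ClassPred (VV S)}

lemma Rep.span_iff (h : Rep R R') {c : Coh S Z} :
    c ∈ Submodule.span S.L (R Z) ↔ cc c ∈ R'.sys.C Z := by
  constructor
  · intro hc
    induction hc using Submodule.span_induction with
    | mem x hx =>
      obtain ⟨j, hj⟩ := h.of hx
      exact ClassPred.sp_of (Q := R') hj
    | zero => exact Submodule.zero_mem _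
    | add x y _ _ hx hy => exact Submodule.add_mem _ hx hy
    | smul r x _ hx => exact Submodule.smul_mem _ _ hx
  · intro hc
    refine ClassPred.sp_ind (Q := R') (q := fun c => dc c ∈ Submodule.span S.L (R Z)) ?_ ?_ ?_ hc
    · intro j x hx; exact h.sp hx
    · exact Submodule.zero_mem _
    · intro a b ha hb; exact Submodule.add_mem _ ha hb

lemma Rep.in_iff (hR : Rep R R') (hC : Rep C C') :
    In R C Z ↔ ∀ j c, R'.P Z j c → C'.P Z j c := by
  constructor
  · intro h j c hc
    have h1 : dc c ∈ Submodule.span S.L (C Z) :=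
      (Submodule.span_le.2 fun x hx => h x hx : Submodule.span S.L (R Z) ≤ _) (hR.sp hc)
    have h2 := ClassPred.sp_proj (Q := C') (hC.span_iff.1 h1) j
    rwa [cc, dc, proj_same _ (R'.gr hc)] at h2
  · intro h c hc
    obtain ⟨j, hj⟩ := hR.of hc
    exact hC.sp (h j _ hj)

lemma Rep.span_eq (h : Rep R R') (Z : 𝒱.Obj) :
    (show Submodule (VV S).K ((VV S).H Z) from
      (Submodule.span S.L (R Z) : Submodule S.L (Coh S Z))) = R'.sys.C Z :=
  Submodule.ext fun _ => h.span_iff

lemma Rep.dim_eq (h : Rep R R') (X : 𝒱.Obj) (n : ℕ) :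
    dimOn R X n = dimBy (VV S) R'.P (pw X n) := by
  rw [ClassPred.dimBy_eq, ← h.span_eq]
  rfl

lemma Rep.op_iff (h : Rep R R') {φ : Opr S X} : IsOp R X φ ↔ oo φ ∈ R'.sys.Op X X := by
  rw [Sys.mem_Op]
  constructor
  · rintro ⟨z, hz, hφ⟩
    refine ⟨cc z, h.span_iff.1 hz, LinearMap.ext fun a => ?_⟩
    have h1 := (hφ (dc a)).trans (image_eq (z := z) (c := dc a))
    exact h1.symm
  · rintro ⟨z, hz, hφ⟩
    refine ⟨dc z, h.span_iff.2 hz, fun a => ?_⟩
    have h1 : φ a = dc ((VV S).corr z (cc a)) := by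
      rw [hφ]
      rfl
    exact h1.trans (image_eq (z := dc z) (c := a)).symm

lemma Rep.central_iff (h : Rep R R') {A : Opr S X} : Central R X A ↔
    oo A ∈ R'.sys.Op X X ∧ ∀ φ ∈ R'.sys.Op X X, oo A * φ = φ * oo A := by
  constructor
  · rintro ⟨h1, h2⟩
    exact ⟨h.op_iff.1 h1, fun φ hφ => h2 (uu φ) (h.op_iff.2 hφ)⟩
  · rintro ⟨h1, h2⟩
    exact ⟨h.op_iff.2 h1, fun φ hφ => h2 (oo φ) (h.op_iff.1 hφ)⟩

/-- The derivations given by an operator. -/
lemma isDer_eq {A : Opr S X} {D : ∀ m, Opr S (pw X m)} (hD : IsDer A D) (m : ℕ) :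
    oo (D m) = derOp (oo A) m := by
  have h : TL.F.IsDer (T := S.T) (L := S.L) X A D := ⟨hD.1, fun m a b => hD.2 m a b⟩
  exact Pool.Agent.Q67.TG.isDer_eq h m

lemma isDer_derOp (A : Opr S X) : IsDer A fun m => uu (derOp (oo A) m) := by
  have h := Pool.Agent.Q67.TG.isDer_derOp (T := S.T) (L := S.L) A
  exact ⟨h.1, fun m a b => h.2 m a b⟩

lemma Rep.kills_iff (h : Rep R R') {A : Opr S X} {m : ℕ} :
    Kills R A m ↔ ∀ c ∈ R'.sys.C (pw X m), derOp (oo A) m c = 0 := by
  constructor
  · intro hA c hc
    have h0 := hA _ (isDer_derOp A)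
    have h2 : dc c ∈ Submodule.span S.L (R (pw X m)) := h.span_iff.2 hc
    have h3 : Submodule.span S.L (R (pw X m)) ≤
        LinearMap.ker (uu (derOp (oo A) m)) := Submodule.span_le.2 fun x hx => h0 x hx
    exact h3 h2
  · intro hA D hD c hc
    have h1 := isDer_eq hD m
    have h2 := hA (cc c) (h.span_iff.1 (Submodule.subset_span hc))
    rw [← h1] at h2
    exact h2

/-- The generators. -/
lemma generated_of (hR : Rep R R') (hC : Rep C C') {N : ℕ∞}
    (hN : GeneratedOver (VV S) C'.P R'.P X N) : Generated R C X N := by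
  obtain ⟨r, c, hr, hc, hG⟩ := hN
  refine ⟨r, fun i => (c i).1, fun i => dc (c i).2, hr, fun i => ?_, fun n x hx => ?_⟩
  · obtain ⟨j, hj⟩ := hc i
    exact hR.sp hj
  obtain ⟨j, hj⟩ := hR.of hx
  have h1 := hG n j _ hj
  have key : ∀ y : (VV S).H (pw X n), y ∈ genOver (VV S) C'.P X c n →
      dc y ∈ Submodule.span S.L (gens C (fun i => dc (c i).2) (pw X n)) := by
    intro y hy
    unfold genOver at hy
    induction hy using Submodule.span_induction with
    | mem y hy =>
      rcases hy with ⟨j, hy⟩ | hy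
      · exact Submodule.span_mono (fun z hz => Or.inl hz) (hC.sp hy)
      · obtain ⟨i, hi⟩ := Set.mem_iUnion.1 hy
        obtain ⟨j, z, hz, hzy⟩ := hi
        have h2 := hC.sp hz
        have h3 : dc y = image (dc z) (dc (c i).2) := by
          rw [image_eq, ← hzy]
          rfl
        rw [h3]
        clear h3 hzy hz
        generalize dc z = z at h2
        induction h2 using Submodule.span_induction with
        | mem z hz =>
          exact Submodule.subset_span (Or.inr (Set.mem_iUnion.2 ⟨i, z, hz, rfl⟩))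
        | zero =>
          rw [image_eq]
          have h5 : (VV S).corr (cc (S := S) (0 :
            Coh S ((pw X (c i).1).prod (pw X n)))) = 0 := corr_zero _
          rw [h5]
          exact Submodule.zero_mem _
        | add a b _ _ ha hb =>
          rw [image_eq] at ha hb ⊢
          have h5 : (VV S).corr (cc (a + b)) = (VV S).corr (cc a) + (VV S).corr (cc b) :=
            corr_add _ _ _
          rw [h5]
          exact Submodule.add_mem _ ha hb
        | smul l a _ ha =>
          rw [image_eq] at ha ⊢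
          have h5 : (VV S).corr (cc (l • a)) =
            (show (VV S).K from l) • (VV S).corr (cc a) := corr_smul _ _ _
          rw [h5]
          exact Submodule.smul_mem _ _ ha
    | zero => exact Submodule.zero_mem _
    | add x y _ _ hx hy => exact Submodule.add_mem _ hx hy
    | smul r x _ hx => exact Submodule.smul_mem _ _ hx
  exact key _ h1

end Pool.Agent.Q67.TN
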