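import Pool.Agent.Q67.TN.Conv

/-!
# The Mumford-Tate law: final form
-/

set_option autoImplicit false
set_option linter.unusedSectionVars false

open CategoryTheory AlgebraicGeometry TensorProduct Filter Topology

universe u v w

namespace Pool.Agent.Q67.TN

open Pool.Agent.H914 Pool.Agent.H914.VarClass Pool.Agent.H914.VarClass.Obj
  Pool.Agent.H914.WeilCohomology
open Pool.Agent.Y133.Half hiding prj extOp_xp tateDim
open Pool.Agent.Q67.Det Pool.Agent.Q67.TK
open Pool.Agent.Q67.TG
open Pool.Agent.W458.MF Pool.Agent.W536.RR Pool.Agent.H281R3.HT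
open Pool.Agent.Y121 Pool.Agent.Y121.AHS
open Pool.Agent.Q67.TM (LinOp killedBy IsInf Intertwines SpannedBy spanDim Complemented CentralIn
  NoSkew GivenBy Leibniz Kill)
open Pool.Agent.Q67.TG.F (hodgeSet IsOddProj IsPolarisation)

variable {k : Type u} [Field k] {𝒱 : VarClass k} {ops : CycleOps 𝒱} {S : Theory ops}
  {X Y Z : 𝒱.Obj} {C : Classes S}

/-! ### Rational classes -/

lemma em_cc (x : RH S X) : cc (em S x) = AH.em (toH S.T).W S.L x := rfl

lemma em_inj {x y : RH S X} (h : em S x = em S y) : x = y := by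
  have h1 : AH.em (toH S.T).W S.L (show (toH S.T).W.H X from x) =
    AH.em (toH S.T).W S.L (show (toH S.T).W.H X from y) := h
  have h2 : AH.em (toH S.T).W S.L
      ((show (toH S.T).W.H X from x) - (show (toH S.T).W.H X from y)) = 0 := by
    have h3 : AH.em (toH S.T).W S.L
      ((show (toH S.T).W.H X from x) - (show (toH S.T).W.H X from y)) =
      AH.em (toH S.T).W S.L (show (toH S.T).W.H X from x) -
        AH.em (toH S.T).W S.L (show (toH S.T).W.H X from y) := TensorProduct.tmul_sub _ _ _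
    rw [h3, h1, sub_self]
  exact sub_eq_zero.1 (AH.em_injective h2)

/-- the rational classes in `C` -/
def ratSet (C : Classes S) (X : 𝒱.Obj) : Set (S.T.W.H X) := {c | em S c ∈ C X}

lemma hodge_iff {x : Coh S X} : x ∈ hodge S X ↔ ∃ c ∈ hodgeSet S.T X, em S c = x := Iff.rfl

/-- The classes `em c` with `c` in a set of rational classes. -/
lemma rep_lift {R : Classes S} {Q : ClassPred (toH S.T).W} {R₀ : ∀ Z, Set (S.T.W.H Z)}
    (hR : ∀ Z, R Z = em S '' R₀ Z)
    (hof : ∀ Z, ∀ c ∈ R₀ Z, ∃ j, Q.P Z j c)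
    (hsp : ∀ Z j c, Q.P Z j c → (show S.T.W.H Z from c) ∈ Submodule.span S.T.W.K (R₀ Z)) :
    Rep R (bcPred S.L Q) := by
  refine ⟨?_, ?_⟩
  · intro Z c hc
    rw [hR] at hc
    obtain ⟨x, hx, rfl⟩ := hc
    obtain ⟨j, hj⟩ := hof Z x hx
    exact ⟨j, bcPred_of hj⟩
  · intro Z j c hc
    have h2 := hc.1
    rw [TG.mem_base] at h2
    have key : ∀ x : (toH S.T).W.H Z, x ∈ Q.sys.C Z →
        dc (AH.em (toH S.T).W S.L x) ∈ Submodule.span S.L (R Z) := by
      intro x hx
      refine ClassPred.sp_ind (Q := Q)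
        (q := fun x => dc (AH.em (toH S.T).W S.L x) ∈ Submodule.span S.L (R Z)) ?_ ?_ ?_ hx
      · intro j x hx
        have h3 := hsp Z j x hx
        have h4 : ∀ y : S.T.W.H Z, y ∈ Submodule.span S.T.W.K (R₀ Z) →
            em S y ∈ Submodule.span S.L (R Z) := by
          intro y hy
          induction hy using Submodule.span_induction with
          | mem y hy =>
            refine Submodule.subset_span ?_
            rw [hR]
            exact ⟨y, hy, rfl⟩
          | zero =>
            have h5 : em S (0 : S.T.W.H Z) = 0 := AH.em_zero (W := (toH S.T).W) (L := S.L)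
            rw [h5]
            exact Submodule.zero_mem _
          | add a b _ _ ha hb =>
            have h5 : em S (a + b) = em S a + em S b :=
              AH.em_add (W := (toH S.T).W) (L := S.L) a b
            rw [h5]
            exact Submodule.add_mem _ ha hb
          | smul r a _ ha =>
            have h5 : em S (r • a) = (algebraMap S.T.W.K S.L r) • em S a :=
              AH.em_smul (W := (toH S.T).W) (L := S.L) r a
            rw [h5]
            exact Submodule.smul_mem _ _ ha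
        exact h4 x h3
      · rw [AH.em_zero]; exact Submodule.zero_mem _
      · intro a b ha hb; rw [AH.em_add]; exact Submodule.add_mem _ ha hb
    have key2 : ∀ x : (VV S).H Z, x ∈ Submodule.span (VV S).K
        (AH.em (toH S.T).W S.L '' (Q.sys.C Z : Set ((toH S.T).W.H Z))) →
        dc x ∈ Submodule.span S.L (R Z) := by
      intro x hx
      induction hx using Submodule.span_induction with
      | mem x hx =>
        obtain ⟨c, hc, rfl⟩ := hx
        exact key c hc
      | zero => exact Submodule.zero_mem _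
      | add x y _ _ hx hy => exact Submodule.add_mem _ hx hy
      | smul r x _ hx => exact Submodule.smul_mem _ _ hx
    exact key2 _ h2

lemma rep_hodge : Rep (hodge S) (bcPred S.L (AH.hodgePred (toH S.T))) :=
  rep_lift (R₀ := fun Z => hodgeSet S.T Z) (fun _ => rfl) (fun _ _ hc => hc)
    (fun _ j _ hc => Submodule.subset_span ⟨j, hc⟩)

/-! ### The system of classes -/

section sys

variable (hC : IsSystem C)

include hC

lemma isHodge_of {c : S.T.W.H X} (hc : c ∈ ratSet C X) : c ∈ hodgeSet S.T X := by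
  obtain ⟨x, hx, h⟩ := (hC.1 X).2.1 _ hc
  have h1 := em_inj h
  rw [← h1]
  exact hx

lemma rat_eq (Z : 𝒱.Obj) : C Z = em S '' ratSet C Z := by
  ext x
  constructor
  · intro hx
    obtain ⟨c, -, rfl⟩ := (hC.1 Z).2.1 _ hx
    exact ⟨c, hx, rfl⟩
  · rintro ⟨c, hc, rfl⟩
    exact hc

lemma rat_mul {a b : S.T.W.H X} (ha : a ∈ Submodule.span S.T.W.K (ratSet C X))
    (hb : b ∈ Submodule.span S.T.W.K (ratSet C X)) :
    a * b ∈ Submodule.span S.T.W.K (ratSet C X) := by
  induction ha using Submodule.span_induction with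
  | mem a ha =>
    induction hb using Submodule.span_induction with
    | mem b hb =>
      refine Submodule.subset_span ?_
      have h1 := (hC.1 X).2.2 _ ha _ hb
      have h2 : em S (a * b) = mu (em S a) (em S b) :=
        AH.em_mul (W := (toH S.T).W) (L := S.L) a b
      change em S (a * b) ∈ C X
      rw [h2]
      exact h1
    | zero => rw [mul_zero]; exact Submodule.zero_mem _
    | add x y _ _ hx hy => rw [mul_add]; exact Submodule.add_mem _ hx hy
    | smul r x _ hx => rw [mul_smul_comm]; exact Submodule.smul_mem _ _ hx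
  | zero => rw [zero_mul]; exact Submodule.zero_mem _
  | add x y _ _ hx hy => rw [add_mul]; exact Submodule.add_mem _ hx hy
  | smul r x _ hx => rw [smul_mul_assoc]; exact Submodule.smul_mem _ _ hx

lemma rat_map (f : X ⟶ Y) {a : S.T.W.H Y} (ha : a ∈ Submodule.span S.T.W.K (ratSet C Y)) :
    S.T.W.map f a ∈ Submodule.span S.T.W.K (ratSet C X) := by
  induction ha using Submodule.span_induction with
  | mem a ha =>
    refine Submodule.subset_span ?_
    have h1 := (hC.2 X Y f).1 _ ha
    have h2 : cc (pull f (em S a)) = cc (em S (S.T.W.map f a)) :=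
      (map_cc f (em S a)).symm.trans (AH.em_map (W := (toH S.T).W) (L := S.L) f a)
    change em S (S.T.W.map f a) ∈ C X
    have h3 : em S (S.T.W.map f a) = pull f (em S a) := h2.symm
    rw [h3]
    exact h1
  | zero => rw [map_zero]; exact Submodule.zero_mem _
  | add x y _ _ hx hy => rw [map_add]; exact Submodule.add_mem _ hx hy
  | smul r x _ hx => rw [map_smul]; exact Submodule.smul_mem _ _ hx

lemma rat_push (f : X ⟶ Y) {a : S.T.W.H X} (ha : a ∈ Submodule.span S.T.W.K (ratSet C X)) :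
    S.T.W.push f a ∈ Submodule.span S.T.W.K (ratSet C Y) := by
  induction ha using Submodule.span_induction with
  | mem a ha =>
    refine Submodule.subset_span ?_
    have h1 := (hC.2 X Y f).2 _ ha
    have h2 : em S (S.T.W.push f a) = push f (em S a) :=
      (AH.em_push (W := (toH S.T).W) (L := S.L) f a).symm
    change em S (S.T.W.push f a) ∈ C Y
    rw [h2]
    exact h1
  | zero => rw [map_zero]; exact Submodule.zero_mem _
  | add x y _ _ hx hy => rw [map_add]; exact Submodule.add_mem _ hx hy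
  | smul r x _ hx => rw [map_smul]; exact Submodule.smul_mem _ _ hx

/-- The system as a system in the library. -/
noncomputable def sysOf : ClassPred (toH S.T).W where
  P X j c := (show S.T.W.H X from c) ∈ Submodule.span S.T.W.K (ratSet C X) ∧
    c ∈ (toH S.T).W.gr X (2 * j)
  gr h := h.2
  zero := ⟨Submodule.zero_mem _, Submodule.zero_mem _⟩
  add ha hb := ⟨Submodule.add_mem _ ha.1 hb.1, Submodule.add_mem _ ha.2 hb.2⟩
  smul r _ h := ⟨Submodule.smul_mem _ r h.1, Submodule.smul_mem _ r h.2⟩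
  cl {X j z} hz := ⟨Submodule.subset_span ((hC.1 X).1 _ ⟨_, ⟨j, z, hz, rfl⟩, rfl⟩),
    S.T.W.cl_mem hz⟩
  mul ha hb := ⟨rat_mul hC ha.1 hb.1, by
    rw [mul_add]; exact (toH S.T).W.mul_mem ha.2 hb.2⟩
  map f _ _ h := ⟨rat_map hC f h.1, (toH S.T).W.map_mem f h.2⟩
  push {X Y} f {j l} hl {a} h := ⟨rat_push hC f h.1, AH.push_gr f hl h.2⟩

lemma rep_sys : Rep C (bcPred S.L (sysOf hC)) :=
  rep_lift (R₀ := fun Z => ratSet C Z) (rat_eq hC)
    (fun Z c hc => by
      obtain ⟨j, hj⟩ := isHodge_of hC hc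
      exact ⟨j, Submodule.subset_span hc, hj.1⟩)
    (fun _ j _ hc => hc.1)

lemma sys_hodge {Z : 𝒱.Obj} {j : ℕ} {c : (toH S.T).W.H Z} (hc : (sysOf hC).P Z j c) :
    (AH.hodgePred (toH S.T)).P Z j c := by
  have h1 : c ∈ (AH.hodgePred (toH S.T)).sys.C Z := by
    have h2 : Submodule.span S.T.W.K (ratSet C Z) ≤
        (show Submodule S.T.W.K (S.T.W.H Z) from (AH.hodgePred (toH S.T)).sys.C Z) := by
      refine Submodule.span_le.2 fun x hx => ?_
      obtain ⟨i, hi⟩ := isHodge_of hC hx
      exact ClassPred.sp_of (Q := AH.hodgePred (toH S.T)) hi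
    exact h2 hc.1
  have h3 := ClassPred.sp_proj (Q := AH.hodgePred (toH S.T)) h1 j
  rwa [proj_same _ hc.2] at h3

end sys

/-! ### The Lie algebra -/

section lie

variable {D : Action S} (hD : Infinitesimal C D) (hC : IsSystem C)

/-- The infinitesimal action. -/
noncomputable def lieOf : LieAct (VV S) where
  ι := D.ι
  op a X := oo (D.op X a)
  gr a X i x hx := (hD.1 X a).1 i x hx
  mul a X x y := (hD.1 X a).2.1 x y
  map a X Y f y := by
    have h1 : oo (D.op X a) (cc (pull f (dc y))) = cc (pull f (D.op Y a (dc y))) :=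
      hD.2 X Y f a (dc y)
    have h2 := map_cc f (dc y)
    have h3 := map_cc f (D.op Y a (dc y))
    refine (congrArg (oo (D.op X a)) h2).trans ?_
    exact h1.trans h3.symm
  tr a X x := (hD.1 X a).2.2.1 x
  cl a X j z hz := (hD.1 X a).2.2.2 _ ((hC.1 X).1 _ ⟨_, ⟨j, z, hz, rfl⟩, rfl⟩)

lemma rep_tate : Rep (tate D) (lieOf hD hC).pred := by
  refine ⟨?_, ?_⟩
  · rintro Z c ⟨⟨j, hj⟩, hc⟩
    exact ⟨j, hj, fun a => hc a⟩
  · rintro Z j c ⟨hj, hc⟩
    exact Submodule.subset_span ⟨⟨j, hj⟩, fun a => hc a⟩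

lemma semi_of (hs : Semisimple D Z) : (lieOf hD hC).Semi Z := by
  intro U hU
  obtain ⟨U', hc, hs'⟩ := hs (U : Submodule S.L (Coh S Z)) fun a x hx => hU a x hx
  exact ⟨U', hc, fun a x hx => hs' a x hx⟩

lemma sys_killed {Z : 𝒱.Obj} {j : ℕ} {c : (toH S.T).W.H Z} (hc : (sysOf hC).P Z j c)
    (a : (lieOf hD hC).ι) : (lieOf hD hC).op a Z (AH.em (toH S.T).W S.L c) = 0 := by
  have h4 : ∀ y : S.T.W.H Z, y ∈ Submodule.span S.T.W.K (ratSet C Z) →
      (lieOf hD hC).op a Z (AH.em (toH S.T).W S.L y) = 0 := by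
    intro y hy
    induction hy using Submodule.span_induction with
    | mem y hy => exact (hD.1 Z a).2.2.2 _ hy
    | zero =>
      have h5 : AH.em (toH S.T).W S.L (0 : S.T.W.H Z) = 0 :=
        AH.em_zero (W := (toH S.T).W) (L := S.L)
      rw [h5, map_zero]
    | add a b _ _ ha hb =>
      have h5 : AH.em (toH S.T).W S.L (a + b) = AH.em (toH S.T).W S.L a +
          AH.em (toH S.T).W S.L b := AH.em_add (W := (toH S.T).W) (L := S.L) a b
      rw [h5, map_add, ha, hb, add_zero]
    | smul r a _ ha =>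
      have h5 : AH.em (toH S.T).W S.L (r • a) =
        AH.ex (toH S.T).W S.L r • AH.em (toH S.T).W S.L a :=
        AH.em_smul (W := (toH S.T).W) (L := S.L) r a
      rw [h5, map_smul, ha, smul_zero]
  exact h4 c hc.1

end lie

/-! ### The operators -/

section desc

/-- An operator which is given by the extended system is given by the system. -/
lemma op_descent {W : WeilCohomology.{u, 0} ops} {L : Type} [Field L] [Algebra W.K L]
    {Q : ClassPred W} {φ : Module.End W.K (W.H X)}
    (h : bcE L φ ∈ (bcPred L Q).sys.Op X X) : φ ∈ Q.sys.Op X X := by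
  obtain ⟨z, hz, hφ⟩ := Sys.mem_Op.1 h
  rw [bcPred_sys, TG.mem_base] at hz
  obtain ⟨n, v, d, hd⟩ := exists_homog_basis W X
  have key : ∀ z ∈ Submodule.span (baseW W L).K (AH.em W L ''
      (Q.sys.C (X.prod X) : Set (W.H (X.prod X)))),
      ∀ l : L →ₗ[W.K] W.K, ∃ ψ ∈ Q.sys.Op X X, ∀ i j,
        l (TG.mt (vL L v) ((baseW W L).corr z) i j) = TG.mt v ψ i j := by
    intro z hz
    induction hz using Submodule.span_induction with
    | mem x hx =>
      obtain ⟨c, hc, rfl⟩ := hx
      intro l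
      have h1 : (baseW W L).corr (AH.em W L c) = bcE L (W.corr c) :=
        corrOp_base (L := L) (W.map (fst X X)) (W.push (snd X X)) c
      refine ⟨l 1 • W.corr c, Submodule.smul_mem _ _ (Sys.mem_Op.2 ⟨c, hc, rfl⟩),
        fun i j => ?_⟩
      have e0 : TG.mt (vL L v) (bcE L (W.corr c)) i j =
          algebraMap W.K L (TG.mt v (W.corr c) i j) := by rw [mt_bcE]; rfl
      have e1 : TG.mt v (l 1 • W.corr c) i j = l 1 * TG.mt v (W.corr c) i j := by
        rw [TG.mt, TG.mt, map_smul]; rfl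
      rw [h1, e1]
      refine (congrArg l e0).trans ?_
      rw [Algebra.algebraMap_eq_smul_one, map_smul, smul_eq_mul, mul_comm]
    | zero =>
      intro l
      refine ⟨0, Submodule.zero_mem _, fun i j => ?_⟩
      have h5 : (baseW W L).corr (0 : (baseW W L).H (X.prod X)) = 0 := corr_zero _
      rw [h5, TG.mt, TG.mt, map_zero, map_zero]
      exact map_zero l
    | add x y _ _ hx hy =>
      intro l
      obtain ⟨ψ, hψ, h1⟩ := hx l
      obtain ⟨ψ', hψ', h1'⟩ := hy l
      refine ⟨ψ + ψ', Submodule.add_mem _ hψ hψ', fun i j => ?_⟩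
      have h5 : (baseW W L).corr (x + y) = (baseW W L).corr x + (baseW W L).corr y :=
        corr_add _ _ _
      rw [h5, TG.mt, TG.mt, map_add, map_add]
      exact (map_add l _ _).trans (congrArg₂ (· + ·) (h1 i j) (h1' i j))
    | smul r x _ hx =>
      intro l
      obtain ⟨ψ, hψ, h1⟩ := hx (l ∘ₗ LinearMap.mulLeft W.K (show L from r))
      refine ⟨ψ, hψ, fun i j => ?_⟩
      have h5 : (baseW W L).corr (r • x) = r • (baseW W L).corr x := corr_smul _ _ _
      rw [h5, TG.mt, map_smul]
      exact h1 i j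
  obtain ⟨l, hl⟩ : ∃ l : L →ₗ[W.K] W.K, l 1 = 1 := by
    have h1 : ∃ l : L →ₗ[W.K] W.K, l 1 ≠ 0 := by
      by_contra h
      push Not at h
      exact one_ne_zero ((Module.forall_dual_apply_eq_zero_iff W.K (1 : L)).1 h)
    obtain ⟨l, hl⟩ := h1
    exact ⟨(l 1)⁻¹ • l, by rw [LinearMap.smul_apply, smul_eq_mul, inv_mul_cancel₀ hl]⟩
  obtain ⟨ψ, hψ, h1⟩ := key z hz l
  have h2 : φ = ψ := by
    refine mt_inj (v := v) (Matrix.ext fun i j => ?_)
    have e0 : TG.mt (vL L v) (bcE L φ) i j = algebraMap W.K L (TG.mt v φ i j) := by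
      rw [mt_bcE]; rfl
    rw [← h1 i j, hφ]
    refine Eq.trans ?_ (congrArg l e0).symm
    rw [Algebra.algebraMap_eq_smul_one, map_smul, hl, smul_eq_mul, mul_one]
  rw [h2]
  exact hψ

variable (hC : IsSystem C)

lemma ratOp_mem {φ : TG.F.Opr S.T X} (h : IsRatOp C X φ) :
    (show Module.End (toH S.T).W.K ((toH S.T).W.H X) from φ) ∈ (sysOf hC).sys.Op X X := by
  refine op_descent (L := S.L) (Sys.mem_Op.2 ?_)
  obtain ⟨z, hz, h1⟩ := h
  refine ⟨cc z, (rep_sys hC).span_iff.1 hz, ?_⟩
  refine em_ext (W := (toH S.T).W) fun x => ?_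
  rw [bcE_em]
  have h2 := h1 x
  rw [image_eq] at h2
  exact h2.symm

lemma odd_mem (h : OddIn C X) : oddP (toH S.T).W X ∈ (sysOf hC).sys.Op X X := by
  have hch := charZero_K (toH S.T)
  obtain ⟨φ, hφ, h1⟩ := h
  have h2 : oddP (toH S.T).W X =
      (show Module.End (toH S.T).W.K ((toH S.T).W.H X) from φ) := by
    refine LinearMap.ext fun x => ?_
    refine gr_induction ((toH S.T).W.isInternal X)
      (p := fun x => oddP (toH S.T).W X x = φ x) ?_ ?_ x
    · intro i x hx
      rw [oddP_apply (PH.of hx)]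
      exact (h1 i x hx).symm
    · intro a b ha hb
      rw [map_add, ha, hb]
      exact (map_add φ a b).symm
  rw [h2]
  exact ratOp_mem hC hφ

/-- The polarisation data. -/
noncomputable def polOf {u : TG.F.Opr S.T X} (hu : IsRatOp C X u)
    (hpol : IsPolarisation S.T X u) (hodd : OddIn C X) :
    PolData (toH S.T) (sysOf hC).sys X where
  le _ := ClassPred.sys_le (sys_hodge hC) _
  uu := u
  mem := ratOp_mem hC hu
  odd := odd_mem hC hodd
  pol := pol_of hpol

end desc

/-! ### The law -/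

section law

variable {R : Classes S} {R' : ClassPred (VV S)} {N : ℕ∞}

lemma killsC_iff (hC : IsSystem C) {A : Opr S X} :
    (∀ m, Kills C A m) ↔ KillsW (bcPred S.L (sysOf hC)).sys X (oo A) :=
  forall_congr' fun _ => (rep_sys hC).kills_iff

lemma killsR_iff (hR : Rep R R') {A : Opr S X} :
    (∀ m, Kills R A m) ↔ KillsW R'.sys X (oo A) :=
  forall_congr' fun _ => hR.kills_iff

lemma law_of (hR : Rep R R') (hC : IsSystem C) (P : PolData (toH S.T) (sysOf hC).sys X)
    (hle : ∀ {Z : 𝒱.Obj} {j : ℕ} {c : (VV S).H Z}, (bcPred S.L (sysOf hC)).P Z j c →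
      R'.P Z j c) (h : LawOf R' (sysOf hC) X N) : Law R C X N := by
  have hdR : dimOn R X = fun n => dimBy (VV S) R'.P (pw X n) := funext fun n => hR.dim_eq X n
  have hdC : dimOn C X = fun n => dimBy (toH S.T).W (sysOf hC).P (pw X n) :=
    funext fun n => ((rep_sys hC).dim_eq X n).trans (bcPred_dim _)
  obtain ⟨h1, h2, h3, h4, h5, h6, h7⟩ := id h
  refine ⟨h1, ?_, h3.trans (forall_congr' fun n => ?_), ?_, fun hN =>
    generated_of hR (rep_sys hC) (h5 hN), h6.trans ?_, h7.trans ?_, fun hI hs => ?_⟩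
  · unfold IndexIs
    rw [hdR, hdC]
    exact h2
  · exact (hR.in_iff (rep_sys hC)).symm
  · rw [hdR, hdC]
    exact h4
  · constructor
    · intro h m A _ hA
      exact (killsR_iff hR).2 (h (oo A) ((killsC_iff hC).1 hA)) m
    · intro h A hA
      exact (killsR_iff hR).1 fun m => h m (uu A) trivial ((killsC_iff hC).2 hA)
  · constructor
    · rintro ⟨h4, hZ⟩
      refine ⟨fun A _ hA => hR.kills_iff.2 (h4 (oo A) ((killsC_iff hC).1 hA)),
        fun m A hc hA => ?_⟩
      have h8 := hR.central_iff.1 hc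
      exact (killsR_iff hR).2 (hZ (oo A) ((killsC_iff hC).1 hA) h8.1 h8.2) m
    · rintro ⟨h4, hZ⟩
      refine ⟨fun A hA => hR.kills_iff.1 (h4 (uu A) trivial ((killsC_iff hC).2 hA)),
        fun A hA h8 h9 => ?_⟩
      exact (killsR_iff hR).1 fun m => hZ m (uu A) (hR.central_iff.2 ⟨h8, h9⟩)
        ((killsC_iff hC).2 hA)
  · refine four_suffices P hle h ((hR.in_iff (rep_sys hC)).1 hI) ?_
    intro A hA1 hA2 hA3
    exact hs (uu A) ((rep_sys hC).central_iff.2 ⟨hA1, hA2⟩) fun x y => hA3 (cc x) (cc y)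

end law

/-- **The Mumford-Tate law.** -/
theorem mumford_tate_law (S : Theory ops) (C : Classes S) (hC : IsSystem C) (D : Action S)
    (hD : Infinitesimal C D) (X : 𝒱.Obj) [Nontrivial (RH S X)] (u : TG.F.Opr S.T X)
    (hu : IsRatOp C X u) (hpol : IsPolarisation S.T X u) (hodd : OddIn C X)
    (hss : Semisimple D (X.prod X)) :
    ∃ NH NT : ℕ∞, Law (hodge S) C X NH ∧ Law (tate D) C X NT ∧
      (NH ≠ ⊤ → NH ≤ NT ∧ ∀ n, In (hodge S) (tate D) (pw X n)) ∧
      (NT ≠ ⊤ → NT ≤ NH ∧ ∀ n, In (tate D) (hodge S) (pw X n)) := by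
  have hnt : Nontrivial ((toH S.T).W.H X) := ‹Nontrivial (RH S X)›
  set P := polOf hC hu hpol hodd with hP
  obtain ⟨NH, NT, hH, hT, h1, h2⟩ := mmt (L := S.L) P (lieOf hD hC) (sys_hodge hC)
    (fun {Z j c} hc a => sys_killed hD hC hc a) (semi_of hD hC hss)
  refine ⟨NH, NT, law_of rep_hodge hC P (bc_mono (sys_hodge hC)) hH,
    law_of (rep_tate hD hC) hC P ?_ hT, fun h => ⟨(h1 h).2, fun n => ?_⟩,
    fun h => ⟨(h2 h).2, fun n => ?_⟩⟩
  · intro Z j c hc
    exact bcPred_le (R := (lieOf hD hC).pred)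
      (fun h => ⟨AH.em_gr ((sysOf hC).gr h), fun a => sys_killed hD hC h a⟩) hc
  · exact (rep_hodge.in_iff (rep_tate hD hC)).2 ((h1 h).1 n)
  · exact ((rep_tate hD hC).in_iff rep_hodge).2 ((h2 h).1 n)

end Pool.Agent.Q67.TN
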